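import Mathlib

namespace Pool.Agent.Results.MP_0a7d83_co.NF
open Finset

/-- the NF-complex: the sets containing no facet -/
def nf {V : Type} (D : Set (Finset V)) : Set (Finset V) :=
  {F | ∀ G, Maximal (· ∈ D) G → ¬ G ⊆ F}

def Iso {V : Type} (D E : Set (Finset V)) : Prop :=
  ∃ π : V ≃ V, ∀ F, F ∈ D ↔ F.map π.toEmbedding ∈ E

/-- adjacency in the dumbbell graph -/
def Adj {n m : ℕ} : Fin n ⊕ Fin m → Fin n ⊕ Fin m → Prop
  | .inl i, .inl j => i ≠ j
  | .inr i, .inr j => i ≠ j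
  | .inl i, .inr j => (i : ℕ) = 0 ∧ (j : ℕ) = 0
  | .inr i, .inl j => (i : ℕ) = 0 ∧ (j : ℕ) = 0

/-- the dumbbell graph as a complex: all subsets of edges -/
def bell (n m : ℕ) : Set (Finset (Fin n ⊕ Fin m)) := {F | ∃ u v, Adj u v ∧ F ⊆ {u, v}}

variable {p q : ℕ}

abbrev W (p q : ℕ) := Fin (p + 2) ⊕ Fin (q + 2)

def cl : W p q → Fin 4
  | .inl i => if i = 0 then 0 else 1
  | .inr i => if i = 0 then 2 else 3

def pr (F : Finset (W p q)) (k : Fin 4) : ℕ := (F.filter (fun v => cl v = k)).card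

lemma pr_mono {F G : Finset (W p q)} (h : F ⊆ G) : pr F ≤ pr G :=
  fun _ => card_le_card (filter_subset_filter _ h)

lemma pr_sum (F : Finset (W p q)) : F.card = pr F 0 + pr F 1 + pr F 2 + pr F 3 := by
  rw [card_eq_sum_card_fiberwise (f := cl) (t := univ) (by simp), Fin.sum_univ_four]; rfl

lemma pr_mid {G F : Finset (W p q)} (h : G ⊆ F) (u : Fin 4 → ℕ) (h1 : pr G ≤ u) (h2 : u ≤ pr F) :
    ∃ H, G ⊆ H ∧ H ⊆ F ∧ pr H = u := by
  choose H a b c using fun k => exists_subsuperset_card_eq (filter_subset_filter _ h) (h1 k) (h2 k)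
  refine ⟨univ.biUnion H, fun v hv => mem_biUnion.2 ⟨cl v, mem_univ _, a _ (by simp [hv])⟩,
    fun v hv => ?_, funext fun k => ?_⟩
  · obtain ⟨k, -, hk⟩ := mem_biUnion.1 hv
    exact (mem_filter.1 (b k hk)).1
  · rw [← c k, pr]; congr 1; ext v
    simp only [mem_filter, mem_biUnion, mem_univ, true_and]
    constructor
    · rintro ⟨⟨j, hj⟩, rfl⟩
      rwa [(mem_filter.1 (b j hj)).2]
    · exact fun hv => ⟨⟨k, hv⟩, (mem_filter.1 (b k hv)).2⟩

lemma pr_top : pr (univ : Finset (W p q)) = ![1, p + 1, 1, q + 1] := by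
  funext k
  rw [pr, card_filter, Fintype.sum_sum_type]
  fin_cases k <;> simp [cl, Fin.sum_univ_succ]

def Bd (p q a i b j : ℕ) : Prop := a ≤ 1 ∧ i ≤ p + 1 ∧ b ≤ 1 ∧ j ≤ q + 1

lemma bd (F : Finset (W p q)) : Bd p q (pr F 0) (pr F 1) (pr F 2) (pr F 3) := by
  have := pr_mono (subset_univ F)
  rw [pr_top] at this
  exact ⟨this 0, this 1, this 2, this 3⟩

abbrev Pd := ℕ → ℕ → ℕ → ℕ → Prop

def lift (p q : ℕ) (P : Pd) : Set (Finset (W p q)) := {F | P (pr F 0) (pr F 1) (pr F 2) (pr F 3)}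

lemma step (P Q : Pd)
    (h1 : ∀ a i b j a' i' b' j', Bd p q a i b j → Q a i b j → a' ≤ a → i' ≤ i → b' ≤ b → j' ≤ j →
      P a' i' b' j' → (a' = 0 ∧ P (a' + 1) i' b' j') ∨ (i' ≤ p ∧ P a' (i' + 1) b' j') ∨
        (b' = 0 ∧ P a' i' (b' + 1) j') ∨ (j' ≤ q ∧ P a' i' b' (j' + 1)))
    (h2 : ∀ a i b j, Bd p q a i b j → ¬ Q a i b j → ∃ a' i' b' j', a' ≤ a ∧ i' ≤ i ∧ b' ≤ b ∧ j' ≤ j ∧
      P a' i' b' j' ∧ ∀ c k d l, Bd p q c k d l → a' ≤ c → i' ≤ k → b' ≤ d → j' ≤ l → P c k d l →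
        c + k + d + l ≤ a' + i' + b' + j') : nf (lift p q P) = lift p q Q := by
  ext F
  constructor
  · intro h
    by_contra hc
    obtain ⟨a, i, b, j, e1, e2, e3, e4, e, e'⟩ := h2 _ _ _ _ (bd F) hc
    obtain ⟨G, -, g, hg⟩ := pr_mid (empty_subset F) ![a, i, b, j] (fun k => by simp [pr])
      (fun k => by fin_cases k <;> simpa)
    refine h G ⟨by simpa [lift, hg] using e, fun H hH hGH => ?_⟩ g
    have m := pr_mono hGH
    rw [hg] at m
    have := e' _ _ _ _ (bd H) (m 0) (m 1) (m 2) (m 3) hH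
    exact (eq_of_subset_of_card_le hGH (by rw [pr_sum, pr_sum G, hg]; simpa using this)).ge
  · intro h G hG g
    have m := pr_mono g
    have key : ∀ u : Fin 4 → ℕ, pr G ≤ u → Bd p q (u 0) (u 1) (u 2) (u 3) →
        P (u 0) (u 1) (u 2) (u 3) → u ≤ pr G := by
      intro u h1 h2 h3
      obtain ⟨H, a, -, c⟩ := pr_mid (subset_univ G) u h1 (by
        rw [pr_top]; intro k; fin_cases k; exacts [h2.1, h2.2.1, h2.2.2.1, h2.2.2.2])
      rw [← c]
      exact pr_mono (hG.2 (by simpa [lift, c] using h3) a)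
    obtain ⟨b1, b2, b3, b4⟩ := bd G
    rcases h1 _ _ _ _ _ _ _ _ (bd F) h (m 0) (m 1) (m 2) (m 3) hG.1 with e | e | e | e
    · have := key ![pr G 0 + 1, pr G 1, pr G 2, pr G 3] (fun k => by fin_cases k <;> simp)
        (by simp [Bd]; omega) e.2 0
      simp at this
    · have := key ![pr G 0, pr G 1 + 1, pr G 2, pr G 3] (fun k => by fin_cases k <;> simp)
        (by simp [Bd]; omega) e.2 1
      simp at this
    · have := key ![pr G 0, pr G 1, pr G 2 + 1, pr G 3] (fun k => by fin_cases k <;> simp)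
        (by simp [Bd]; omega) e.2 2
      simp at this
    · have := key ![pr G 0, pr G 1, pr G 2, pr G 3 + 1] (fun k => by fin_cases k <;> simp)
        (by simp [Bd]; omega) e.2 3
      simp at this

lemma mid (a i b j c k d l s : ℕ) (h1 : a ≤ c) (h2 : i ≤ k) (h3 : b ≤ d) (h4 : j ≤ l)
    (h5 : a + i + b + j ≤ s) (h6 : s ≤ c + k + d + l) : ∃ a' i' b' j', a ≤ a' ∧ a' ≤ c ∧ i ≤ i' ∧
      i' ≤ k ∧ b ≤ b' ∧ b' ≤ d ∧ j ≤ j' ∧ j' ≤ l ∧ a' + i' + b' + j' = s :=
  ⟨min c (s - (i + b + j)), min k (s - (min c (s - (i + b + j)) + b + j)),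
    min d (s - (min c (s - (i + b + j)) + min k (s - (min c (s - (i + b + j)) + b + j)) + j)),
    s - (min c (s - (i + b + j)) + min k (s - (min c (s - (i + b + j)) + b + j)) +
      min d (s - (min c (s - (i + b + j)) + min k (s - (min c (s - (i + b + j)) + b + j)) + j))),
    by omega⟩

def Sp (p q : ℕ) : Pd := fun a i b j => (a = 1 ∧ b = 1) ∨ a + i = p + 2 ∨ b + j = q + 2
def E (p q t : ℕ) : Pd := fun a i b j => a + i + b + j ≤ t ∨
  (¬ Sp p q a i b j ∧ a + i + b + j ≤ t + 1) ∨ (a + i + b + j ≤ t + 2 ∧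
    ((b + j = 0 ∧ t ≤ p) ∨ (a + i = 0 ∧ t ≤ q) ∨ (i + j = 0 ∧ t = 0)))
def D1 : Pd := fun a i b j => a + i ≤ 1 ∧ b + j ≤ 1 ∧ a + b ≤ 1
def D2 : Pd := fun a i b j => b + j = 0 ∨ a + i = 0 ∨ i + j = 0
def D3 (p q : ℕ) : Pd := fun a i b j => ¬ Sp p q a i b j
def D4 (p q : ℕ) : Pd := fun a i b j => a + i + b + j ≤ p + q + 1 ∨
  (Sp p q a i b j ∧ a + i + b + j = p + q + 2)

lemma fac (t a i b j : ℕ) (ht : t ≤ p + q + 1) (h : Bd p q a i b j) (hp : E p q t a i b j) :
    ((a = 0 ∧ E p q t (a + 1) i b j) ∨ (i ≤ p ∧ E p q t a (i + 1) b j) ∨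
        (b = 0 ∧ E p q t a i (b + 1) j) ∨ (j ≤ q ∧ E p q t a i b (j + 1))) ∨
    (a + i + b + j = t ∧ Sp p q a i b j) ∨ (a + i + b + j = t + 1 ∧ ¬ Sp p q a i b j ∧
      (t ≤ p → 0 < b + j) ∧ (t ≤ q → 0 < a + i) ∧ 0 < t) ∨ (a + i + b + j = t + 2 ∧
      ((b + j = 0 ∧ t ≤ p) ∨ (a + i = 0 ∧ t ≤ q) ∨ (i + j = 0 ∧ t = 0))) := by
  obtain ⟨h1, h2, h3, h4⟩ := h
  have hs : a + i + b + j ≤ t + 2 := by unfold E at hp; omega
  by_cases c0 : a + i + b + j = t + 2
  · right; right; right; unfold E at hp; omega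
  by_cases c1 : a + i + b + j = t + 1
  · by_cases c2 : t ≤ p ∧ b + j = 0
    · left
      by_cases c3 : a = 0
      · exact Or.inl ⟨c3, Or.inr (Or.inr (by omega))⟩
      · exact Or.inr (Or.inl ⟨by omega, Or.inr (Or.inr (by omega))⟩)
    by_cases c3 : t ≤ q ∧ a + i = 0
    · left
      by_cases c3 : b = 0
      · exact Or.inr (Or.inr (Or.inl ⟨c3, Or.inr (Or.inr (by omega))⟩))
      · exact Or.inr (Or.inr (Or.inr ⟨by omega, Or.inr (Or.inr (by omega))⟩))
    · right; right; left; simp only [E, Sp] at hp ⊢; omega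
  by_cases c2 : Sp p q a i b j
  · by_cases c3 : a + i + b + j = t
    · simp [c2, c3]
    · left
      by_cases c3 : a = 0
      · exact Or.inl ⟨c3, Or.inl (by omega)⟩
      by_cases c4 : i ≤ p
      · exact Or.inr (Or.inl ⟨c4, Or.inl (by omega)⟩)
      by_cases c5 : b = 0
      · exact Or.inr (Or.inr (Or.inl ⟨c5, Or.inl (by omega)⟩))
      · exact Or.inr (Or.inr (Or.inr ⟨by omega, Or.inl (by omega)⟩))
  · left
    unfold Sp at c2
    by_cases c4 : a + i ≤ p
    · exact Or.inr (Or.inl ⟨by omega, Or.inr (Or.inl ⟨by unfold Sp; omega, by omega⟩)⟩)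
    · exact Or.inr (Or.inr (Or.inr ⟨by omega, Or.inr (Or.inl ⟨by unfold Sp; omega, by omega⟩)⟩))

lemma s0 : nf (lift p q (E p q 0)) = lift p q D1 := by
  apply step
  · intro a i b j a' i' b' j' h hq _ _ _ _ hp
    refine (fac 0 a' i' b' j' (by omega) (by unfold Bd at *; omega) hp).resolve_right ?_
    clear hp
    simp only [D1, Sp, Bd] at *
    omega
  · simp only [E, D1, Sp, Bd]
    intro a i b j h1 h2
    by_cases c1 : 2 ≤ a + i
    · exact ⟨a, 2 - a, 0, 0, by omega, by omega, by omega, by omega, by omega, by intros; omega⟩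
    by_cases c2 : 2 ≤ b + j
    · exact ⟨0, 0, b, 2 - b, by omega, by omega, by omega, by omega, by omega, by intros; omega⟩
    · exact ⟨1, 0, 1, 0, by omega, by omega, by omega, by omega, by simp, by intros; omega⟩

lemma s1 : nf (lift p q D1) = lift p q D2 := by
  apply step <;> simp only [D2, D1, Bd]
  · intros; omega
  · intro a i b j h1 h2
    by_cases c1 : 1 ≤ i
    · exact ⟨0, 1, b, 1 - b, by omega, by omega, by omega, by omega, by omega, by intros; omega⟩
    · exact ⟨1, 0, 0, 1, by omega, by omega, by omega, by omega, by omega, by intros; omega⟩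

lemma s2 : nf (lift p q D2) = lift p q (D3 p q) := by
  apply step <;> simp only [D2, D3, Sp, Bd]
  · intros; omega
  · intro a i b j h1 h2
    by_cases c1 : a + i = p + 2
    · exact ⟨a, i, 0, 0, by omega, by omega, by omega, by omega, by omega, by intros; omega⟩
    by_cases c2 : b + j = q + 2
    · exact ⟨0, 0, b, j, by omega, by omega, by omega, by omega, by omega, by intros; omega⟩
    · exact ⟨1, 0, 1, 0, by omega, by omega, by omega, by omega, by omega, by intros; omega⟩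

lemma s3 : nf (lift p q (D3 p q)) = lift p q (D4 p q) := by
  apply step <;> simp only [D4, D3, Sp, Bd]
  · intros; omega
  · intro a i b j h1 h2
    by_cases c1 : i = p + 1
    · exact ⟨0, i, q + 1 - min j q - (j - q), min j q + (j - q), by omega, by omega, by omega,
        by omega, by omega, by intros; omega⟩
    · exact ⟨1, i, 0, j, by omega, by omega, by omega, by omega, by omega, by intros; omega⟩

lemma s4 : nf (lift p q (D4 p q)) = lift p q (E p q (p + q + 1)) := by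
  apply step <;> simp only [D4, E, Sp, Bd]
  · intros; omega
  · intro a i b j h1 h2
    by_cases c1 : a + i = p + 2
    · obtain ⟨a', i', b', j', h⟩ := mid a i 0 0 a i b j (p + q + 2) le_rfl le_rfl (by omega)
        (by omega) (by omega) (by omega)
      exact ⟨a', i', b', j', by omega, by omega, by omega, by omega, by omega, by intros; omega⟩
    by_cases c2 : b + j = q + 2
    · obtain ⟨a', i', b', j', h⟩ := mid 0 0 b j a i b j (p + q + 2) (by omega) (by omega)
        (by omega) (by omega) (by omega) (by omega)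
      exact ⟨a', i', b', j', by omega, by omega, by omega, by omega, by omega, by intros; omega⟩
    · exact ⟨a, i, b, j, by omega, by omega, by omega, by omega, by omega, by intros; omega⟩

lemma s5 (t : ℕ) (ht : t ≤ p + q) : nf (lift p q (E p q (t + 1))) = lift p q (E p q t) := by
  apply step
  · intro a i b j a' i' b' j' h hq _ _ _ _ hp
    refine (fac (t + 1) a' i' b' j' (by omega) (by unfold Bd at *; omega) hp).resolve_right ?_
    clear hp
    simp only [E, Sp, Bd] at *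
    omega
  · simp only [E, Sp, Bd]
    intro a i b j h1 h2
    have fin : ∀ a1 i1 b1 j1 a2 i2 b2 j2 s, a1 ≤ a2 → i1 ≤ i2 → b1 ≤ b2 → j1 ≤ j2 → a2 ≤ a → i2 ≤ i →
        b2 ≤ b → j2 ≤ j → a1 + i1 + b1 + j1 ≤ s → s ≤ a2 + i2 + b2 + j2 →
        ((s = t + 1 ∧ Sp p q a1 i1 b1 j1) ∨ (s = t + 2 ∧ ¬ Sp p q a2 i2 b2 j2 ∧ 1 ≤ a1 + i1 ∧
          1 ≤ b1 + j1) ∨ (s = t + 3 ∧ (b2 + j2 = 0 ∨ a2 + i2 = 0))) →
        ∃ a' i' b' j', a' ≤ a ∧ i' ≤ i ∧ b' ≤ b ∧ j' ≤ j ∧ E p q (t + 1) a' i' b' j' ∧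
          ∀ c k d l, Bd p q c k d l → a' ≤ c → i' ≤ k → b' ≤ d → j' ≤ l → E p q (t + 1) c k d l →
            c + k + d + l ≤ a' + i' + b' + j' := by
      intro a1 i1 b1 j1 a2 i2 b2 j2 s e1 e2 e3 e4 _ _ _ _ e5 e6 e
      obtain ⟨a', i', b', j', h⟩ := mid _ _ _ _ _ _ _ _ s e1 e2 e3 e4 e5 e6
      clear h2
      simp only [E, Sp, Bd] at e ⊢
      exact ⟨a', i', b', j', by omega, by omega, by omega, by omega, by omega, by intros; omega⟩
    simp only [E, Sp, Bd] at fin
    by_cases c1 : t + 3 ≤ a + i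
    · apply fin 0 0 0 0 a i 0 0 (t + 3) <;> omega
    by_cases c2 : t + 3 ≤ b + j
    · apply fin 0 0 0 0 0 0 b j (t + 3) <;> omega
    by_cases c3 : a + i = p + 2 ∧ p + 2 ≤ t + 1
    · apply fin a i 0 0 a i b j (t + 1) <;> omega
    by_cases c4 : b + j = q + 2 ∧ q + 2 ≤ t + 1
    · apply fin 0 0 b j a i b j (t + 1) <;> omega
    by_cases c5 : a = 1 ∧ b = 1 ∧ 1 ≤ t
    · apply fin 1 0 1 0 a i b j (t + 1) <;> omega
    by_cases c6 : a + i = p + 2
    · apply fin 0 i b (1 - b) 0 i b (1 - b) (t + 2) <;> omega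
    by_cases c7 : b + j = q + 2
    · apply fin a (1 - a) 0 j a (1 - a) 0 j (t + 2) <;> omega
    by_cases c8 : a = 1 ∧ b = 1
    · apply fin (1 - i) (min i 1) (min i 1) (1 - i) (1 - i) (min i 1) (min i 1) (1 - i) (t + 2) <;>
        omega
    · apply fin a (1 - a) b (1 - b) a i b j (t + 2) <;> omega

lemma base : bell (p + 2) (q + 2) = lift p q (E p q 0) := by
  ext F
  constructor
  · rintro ⟨u, v, h, hF⟩
    have m := pr_mono hF
    have m0 := m 0; have m1 := m 1; have m2 := m 2; have m3 := m 3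
    have c := (card_le_card hF).trans card_le_two
    rw [pr_sum] at c
    simp only [lift, E, Sp, Set.mem_setOf_eq]
    have z : ∀ k, cl u ≠ k → cl v ≠ k → pr F k = 0 := by
      intro k a b
      have := m k
      simpa [pr, filter_insert, filter_singleton, a, b] using this
    rcases u with u | u <;> rcases v with v | v
    · have := z 2 (by simp only [cl]; split_ifs <;> simp) (by simp only [cl]; split_ifs <;> simp)
      have := z 3 (by simp only [cl]; split_ifs <;> simp) (by simp only [cl]; split_ifs <;> simp)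
      omega
    · have e1 : u = 0 := Fin.ext h.1
      have e2 : v = 0 := Fin.ext h.2
      have := z 1 (by simp [cl, e1]) (by simp [cl, e2])
      have := z 3 (by simp [cl, e1]) (by simp [cl, e2])
      exact Or.inr (Or.inr ⟨by omega, Or.inr (Or.inr ⟨by omega, by trivial⟩)⟩)
    · have e1 : u = 0 := Fin.ext h.1
      have e2 : v = 0 := Fin.ext h.2
      have := z 1 (by simp [cl, e1]) (by simp [cl, e2])
      have := z 3 (by simp [cl, e1]) (by simp [cl, e2])
      exact Or.inr (Or.inr ⟨by omega, Or.inr (Or.inr ⟨by omega, by trivial⟩)⟩)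
    · have := z 0 (by simp only [cl]; split_ifs <;> simp) (by simp only [cl]; split_ifs <;> simp)
      have := z 1 (by simp only [cl]; split_ifs <;> simp) (by simp only [cl]; split_ifs <;> simp)
      omega
  · intro h
    have b := bd F
    simp only [lift, E, Sp, Set.mem_setOf_eq, Bd] at h b
    obtain ⟨a, i, b, j, e⟩ : ∃ a i b j, pr F 0 ≤ a ∧ pr F 1 ≤ i ∧ pr F 2 ≤ b ∧ pr F 3 ≤ j ∧
        a ≤ 1 ∧ i ≤ p + 1 ∧ b ≤ 1 ∧ j ≤ q + 1 ∧ a + i + b + j = 2 ∧
        (b + j = 0 ∨ a + i = 0 ∨ i + j = 0) := by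
      by_cases c1 : pr F 2 + pr F 3 = 0
      · exact ⟨2 - max (pr F 1) 1, max (pr F 1) 1, 0, 0, by omega⟩
      by_cases c2 : pr F 0 + pr F 1 = 0
      · exact ⟨0, 0, 2 - max (pr F 3) 1, max (pr F 3) 1, by omega⟩
      · exact ⟨1, 0, 1, 0, by omega⟩
    obtain ⟨H, a1, -, c⟩ := pr_mid (subset_univ F) ![a, i, b, j]
      (fun k => by fin_cases k <;> simp <;> omega)
      (by rw [pr_top]; intro k; fin_cases k <;> simp <;> omega)
    obtain ⟨u, v, uv, rfl⟩ := card_eq_two.1 (show H.card = 2 by rw [pr_sum, c]; simp; omega)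
    refine ⟨u, v, ?_, a1⟩
    have y : ∀ w ∈ ({u, v} : Finset (W p q)), 1 ≤ ![a, i, b, j] (cl w) := by
      intro w hw
      rw [← c]
      exact card_pos.2 ⟨w, by simpa using hw⟩
    have y1 := y u (by simp)
    have y2 := y v (by simp)
    rcases u with u | u <;> rcases v with v | v <;> simp only [Adj]
    · simpa using uv
    · simp only [cl] at y1 y2
      split_ifs at y1 y2 <;> simp_all <;> omega
    · simp only [cl] at y1 y2
      split_ifs at y1 y2 <;> simp_all <;> omega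
    · simpa using uv

lemma ex3 (P : Pd) (a i b j : ℕ) (h : Bd p q a i b j) (h' : P a i b j) (h3 : 3 ≤ a + i + b + j) :
    ¬ Iso (lift p q P) (bell (p + 2) (q + 2)) := by
  rintro ⟨π, hπ⟩
  obtain ⟨H, -, -, c⟩ := pr_mid (empty_subset (univ : Finset (W p q))) ![a, i, b, j]
    (fun k => by simp [pr]) (by
      rw [pr_top]; intro k; fin_cases k; exacts [h.1, h.2.1, h.2.2.1, h.2.2.2])
  obtain ⟨u, v, -, e⟩ := (hπ H).1 (by simpa [lift, c] using h')
  have := (card_le_card e).trans card_le_two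
  rw [card_map, pr_sum, c] at this
  simp at this
  omega

lemma tri (h : 0 < p + q) : ¬ Iso (lift p q D1) (bell (p + 2) (q + 2)) := by
  rintro ⟨π, hπ⟩
  have key : ∀ u v : W p q, Adj u v → u ≠ v → (π.symm u).isLeft ≠ (π.symm v).isLeft := by
    intro u v h uv
    have := (hπ {π.symm u, π.symm v}).2 ⟨u, v, h, by simp⟩
    have ne : π.symm u ≠ π.symm v := by simpa using uv
    have c := pr_sum {π.symm u, π.symm v}
    rw [card_pair ne] at c
    simp only [lift, D1, Set.mem_setOf_eq] at this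
    have z : ∀ k, cl (π.symm u) ≠ k → cl (π.symm v) ≠ k → pr {π.symm u, π.symm v} k = 0 := by
      intro k a b
      simp [pr, filter_insert, filter_singleton, a, b]
    generalize π.symm u = x at *
    generalize π.symm v = y at *
    rcases x with x | x <;> rcases y with y | y <;> simp
    · have := z 2 (by simp only [cl]; split_ifs <;> simp) (by simp only [cl]; split_ifs <;> simp)
      have := z 3 (by simp only [cl]; split_ifs <;> simp) (by simp only [cl]; split_ifs <;> simp)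
      omega
    · have := z 0 (by simp only [cl]; split_ifs <;> simp) (by simp only [cl]; split_ifs <;> simp)
      have := z 1 (by simp only [cl]; split_ifs <;> simp) (by simp only [cl]; split_ifs <;> simp)
      omega
  have t : ∀ u v w : W p q, Adj u v → Adj u w → Adj v w → u ≠ v → u ≠ w → v ≠ w → False := by
    intro u v w a b c d e f
    have := key u v a d
    have := key u w b e
    have := key v w c f
    cases h1 : (π.symm u).isLeft <;> cases h2 : (π.symm v).isLeft <;>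
      cases h3 : (π.symm w).isLeft <;> simp_all
  rcases Nat.eq_zero_or_pos p with e | e
  · apply t (.inr ⟨0, by omega⟩) (.inr ⟨1, by omega⟩) (.inr ⟨2, by omega⟩) <;> simp [Adj]
  · apply t (.inl ⟨0, by omega⟩) (.inl ⟨1, by omega⟩) (.inl ⟨2, by omega⟩) <;> simp [Adj]

theorem result (n m : ℕ) (hn : 2 ≤ n) (hm : 2 ≤ m) (h : (n, m) ≠ (2, 2)) :
    IsLeast {k | 0 < k ∧ Iso (nf^[k] (bell n m)) (bell n m)} (n + m + 2) := by
  obtain ⟨p, rfl⟩ : ∃ p, n = p + 2 := ⟨n - 2, by omega⟩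
  obtain ⟨q, rfl⟩ : ∃ q, m = q + 2 := ⟨m - 2, by omega⟩
  have h' : 0 < p + q := by
    by_contra c
    exact h (by rw [show p = 0 by omega, show q = 0 by omega])
  have it : ∀ k ≤ p + q + 1, nf^[k + 5] (bell (p + 2) (q + 2)) = lift p q (E p q (p + q + 1 - k)) := by
    intro k
    induction k with
    | zero => intro _; simp [base, s0, s1, s2, s3, s4]
    | succ k ih =>
      intro hk
      rw [show k + 1 + 5 = (k + 5) + 1 by ring, Function.iterate_succ_apply', ih (by omega),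
        show p + q + 1 - k = (p + q + 1 - (k + 1)) + 1 by omega, s5 _ (by omega)]
  refine ⟨⟨by omega, ?_⟩, ?_⟩
  · rw [show p + 2 + (q + 2) + 2 = (p + q + 1) + 5 by ring, it _ le_rfl, Nat.sub_self, ← base]
    exact ⟨Equiv.refl _, by simp⟩
  · rintro k ⟨h0, hk⟩
    by_contra c
    rcases Nat.lt_or_ge k 5 with c5 | c5
    · interval_cases k
      · exact tri h' (by simpa [base, s0] using hk)
      · refine ex3 D2 (p := p) (q := q) (min p 1) (min p 1 + min p 1) (1 - p) (1 - p + (1 - p))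
          ?_ ?_ ?_ (by simpa [base, s0, s1] using hk) <;> (try simp only [Bd, D2]) <;> omega
      · refine ex3 (D3 p q) (p := p) (q := q) 0 (p + 1) 0 (q + 1)
          ?_ ?_ ?_ (by simpa [base, s0, s1, s2] using hk) <;> (try simp only [Bd, D3, Sp]) <;> omega
      · refine ex3 (D4 p q) (p := p) (q := q) 1 p 1 q
          ?_ ?_ ?_ (by simpa [base, s0, s1, s2, s3] using hk) <;> (try simp [Bd, D4, Sp]) <;> omega
    · obtain ⟨k, rfl⟩ : ∃ j, k = j + 5 := ⟨k - 5, by omega⟩
      rw [it k (by omega)] at hk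
      by_cases c1 : k < p + q
      · refine ex3 _ 0 (1 + min p 1) 0 (2 - min p 1) ?_ ?_ ?_ hk <;> (try simp only [Bd, E, Sp]) <;> omega
      · refine ex3 _ (min p 1) (min p 1 + min p 1) (1 - p) (1 - p + (1 - p))
          ?_ ?_ ?_ hk <;> (try simp only [Bd, E, Sp]) <;> omega

end Pool.Agent.Results.MP_0a7d83_co.NF
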